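import Pool.Agent.Y143.Par.Sum

/-!
# mw purity of the cohomology of fibre powers of elliptic curves over curves
-/

open Pool.Agent.Y143 Pool.Agent.Y143.Par

universe u v

/-- Let `H = H^1(C_{\bar K}, j_* S)` be the parabolic cohomology of `S = Sym^k R^1 f_* Ω` for an
elliptic curve `f : E → U` over an open subset `j : U → C` of a smooth projective curve `C` over
`K` (with arbitrary semistable reduction). Then `H` is mw pure of weight `k + 1`. The same holds for
all direct summands of sums of Tate twists of such representations, for example for the cohomology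
(in all degrees) of smooth projective models of all fibre powers of `E` over `C`. -/
theorem Pool.Agent.Results.MP_855f4c_ag.FibrePowers.result
    {Ω : Type u} [Field Ω] [CharZero Ω] {R : Type} [Field R] [LinearOrder R]
    [IsStrictOrderedRing R] [Algebra R Ω] {q : ℕ} (hq : q ≠ 0) :
    (∀ P : ParabolicCohomology.{u, v} Ω R q, IsMWPure q (P.k + 1) P.frob P.N) ∧
    ∀ (ι : Type) (_ : Finite ι) (P : ι → ParabolicCohomology.{u, v} Ω R q) (t : ι → ℤ) (m : ℤ),
      (∀ i, (P i).k + 1 + 2 * t i = m) → ∀ (V : Type v) [AddCommGroup V] [Module Ω V]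
        (Φ N : Module.End Ω V),
        IsSummand q (fun i => (P i).H) (fun i => (P i).frob) (fun i => (P i).N) t Φ N →
          IsMWPure q m Φ N := by
  refine ⟨fun P => P.isMWPure hq, ?_⟩
  intro ι _ P t m hm V _ _ Φ N hS
  exact hS.isMWPure hq hm fun i => (P i).isMWPure hq
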