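import Pool.Agent.Y163.MQ.Cmp

/-!
# MP_855f4c_ag: the monodromy, weight, Newton and Hodge polygons; large monodromy
-/

set_option autoImplicit false

open Module

universe u v v' w w'

namespace Pool.Agent.Results.MP_855f4c_ag.FourPolygons

open Pool.Agent.H914 Pool.Agent.Y143 Pool.Agent.Y163.MW Pool.Agent.Y163.MX Pool.Agent.Y163.MQ

section

variable {K : Type u} [Field K] {Ω : Type w} [Field Ω] [CharZero Ω] {Ω' : Type w'} [Field Ω']
  [CharZero Ω']

/-- For every convex function `φ`: the sum of the `φ k` over the graded pieces `gr_k` of the monodromy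
filtration `M` of `H^m` is at most the sum of the `φ (w - m)` over the weights `w` of the Frobenius
eigenvalues; this is at most the sum of the `φ (2 λ - m)` over their slopes `λ` (in the Hyodo-Kato
cohomology); and this is at most the sum of the `φ (a - b)` with the multiplicities `h^(a,b)`. -/
def Polygons (T : LPTheory.{u, v, v', w, w'} K Ω Ω') (q : ℕ) (X : SmVar.{u} K) (m : ℕ)
    (M : ℤ → Submodule Ω (T.Hl X).V) : Prop :=
  ∀ φ : ℝ → ℝ, ConvexOn ℝ Set.univ φ → monSum M φ ≤ weightSum (T.Hl X) q m φ ∧
    weightSum (T.Hl X) q m φ ≤ newtonSum (T.Hp X) T.val m φ ∧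
    newtonSum (T.Hp X) T.val m φ ≤ hodgeSum m (T.hodge X m) φ

/-- The graded piece `M_k / M_(k - 1)` is pure of weight `m + k`. -/
def GrPure (R : Coh.{v, w} Ω) (q m : ℕ) (M : ℤ → Submodule Ω R.V) (k : ℤ) : Prop :=
  ∀ (α : Ω) (x : R.V), x ∈ M k → x ∉ M (k - 1) → R.F x - α • x ∈ M (k - 1) →
    IsWeilNumber q (m + k) α

/-- `N ^ e` is an isomorphism from the part of `H^m` of weight `m + e` to the part of weight
`m - e`. -/
def IsoAt (R : Coh.{v, w} Ω) (q m e : ℕ) : Prop :=
  (∀ x ∈ R.exc q m e, (R.N ^ e) x = 0 → x = 0) ∧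
    ∀ y ∈ R.exc q m (-(e : ℤ)), ∃ x ∈ R.exc q m e, (R.N ^ e) x = y

/-- Let `t ≥ 0`. If the dimension of `gr_(a - b)` is at least `h^(a,b)` for all `a`, `b` with
`a + b = m` and `a - b > t`, then `gr_k` is pure of weight `m + k` for `|k| ≥ t`, `N ^ e` is an
isomorphism from the part of weight `m + e` to the part of weight `m - e` for all `e > t`, and there
are exactly `h^(a,b)` Frobenius eigenvalues of weight `2 a` on `H^m`, if `a - b > t`. (For `t = 0`
the conclusion is that `H^m` is mw pure of weight `m`.) -/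
def PureFrom (T : LPTheory.{u, v, v', w, w'} K Ω Ω') (q : ℕ) (X : SmVar.{u} K) (m : ℕ)
    (M : ℤ → Submodule Ω (T.Hl X).V) : Prop :=
  ∀ t : ℕ, (∀ a : ℕ, (t : ℤ) < 2 * a - m → (T.hodge X m a : ℤ) ≤ grDim M (2 * a - m)) →
    (∀ k : ℤ, (t : ℤ) ≤ |k| → GrPure (T.Hl X) q m M k) ∧
    (∀ e : ℕ, t < e → IsoAt (T.Hl X) q m e) ∧
    ∀ a : ℕ, (t : ℤ) < 2 * a - m →
      finrank Ω ((T.Hl X).exc q m (2 * a - m)) = T.hodge X m a

/-- The number of the Frobenius eigenvalues on the graded pieces `gr_k` of the monodromy filtration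
whose weight is not `m + k` is at most the difference of the sum of the `(a - b) ^ 2 h^(a,b)` and of
the sum of the `k ^ 2 dim gr_k`. -/
def FewWrong (T : LPTheory.{u, v, v', w, w'} K Ω Ω') (q : ℕ) (X : SmVar.{u} K) (m : ℕ)
    (M : ℤ → Submodule Ω (T.Hl X).V) : Prop :=
  (finrank Ω ((T.Hl X).gr m) : ℝ) - rightDeg (T.Hl X) q m M ≤
    hodgeSum m (T.hodge X m) (fun x => x ^ 2) - monSum M (fun x => x ^ 2)

end

/-- **Monodromy, weights, slopes and Hodge numbers; the monodromy-weight conjecture for large
monodromy.** Let `X` be a smooth proper variety over a finite extension `K` of `ℚ_p`. Suppose that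
the characteristic polynomial of the Frobenius on `H^m(X)` has rational coefficients and is the same
for the `ℓ`-adic and for the Hyodo-Kato cohomology (this is expected in general), or that this is so
for all `H^j(X)` with `j ≠ m` (for example because they are generated by algebraic cycles, as for
all `j ≠ dim X` if `X` is a complete intersection in a Grassmannian or another flag variety). Let `M` be the monodromy filtration of `H^m(X_{\bar K}, ℚ_ℓ)`.

(1) The monodromy polygon lies above the weight polygon, which lies above the Newton polygon, which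
lies above the Hodge polygon (in terms of convex functions).

(2) If, from some point `t` on, the graded pieces of `M` are as large as the Hodge numbers allow,
`dim gr_(a - b) ≥ h^(a,b)` for `a - b > t`, then the assertions of the monodromy-weight conjecture
for `H^m(X)` hold from `t` on; for `t = 0`, the group `H^m(X_{\bar K}, ℚ_ℓ)` is mw pure.

(3) The number of Frobenius eigenvalues on the `gr_k` whose weight is not the one predicted by the
conjecture is at most `∑ (a - b)² h^(a,b) - ∑ k² dim gr_k`. -/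
theorem result {K : Type u} [Field K] {Ω : Type w} [Field Ω] [CharZero Ω] [IsAlgClosed Ω]
    {Ω' : Type w'} [Field Ω'] [CharZero Ω'] [IsAlgClosed Ω']
    {T : LPTheory.{u, v, v', w, w'} K Ω Ω'} {q : ℕ} (hq : 1 < q) (hT : T.IsLocal q)
    (X : SmVar.{u} K) (m : ℕ)
    (hX : Matched (T.Hl X) (T.Hp X) m ∨ (m ≤ 2 * X.dim ∧
      ∀ j, j ≤ 2 * X.dim → j ≠ m → Matched (T.Hl X) (T.Hp X) j))
    (M : ℤ → Submodule Ω (T.Hl X).V) (hM : IsMonodromyFiltrationOn ((T.Hl X).gr m) (T.Hl X).N M) :
    Polygons T q X m M ∧ PureFrom T q X m M ∧ FewWrong T q X m M := by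
  have hmt : Matched (T.Hl X) (T.Hp X) m := by
    rcases hX with h | ⟨hm, h⟩
    · exact h
    · exact matched_of_others (hT.cohl X) (hT.cohp X) hm (hT.compare X) h
  exact ⟨fun φ hφ => four hq (hT.cohl X) (hT.cohp X) hmt hT.val (hT.polygons X m) hM hφ,
    fun t ht => from_max hq (hT.cohl X) (hT.cohp X) hmt hT.val (hT.polygons X m) hM t ht,
    few_wrong hq (hT.cohl X) (hT.cohp X) hmt hT.val (hT.polygons X m) hM⟩

end Pool.Agent.Results.MP_855f4c_ag.FourPolygons
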