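import Pool.Agent.Y163.MW.Asm
import Pool.Agent.Y954.MW.B1

/-!
# MP_855f4c_ag: numerical criteria for the monodromy-weight conjecture, the index law and the
zero-one law
-/

set_option autoImplicit false

open Module Filter Topology

universe u v w

namespace Pool.Agent.Results.MP_855f4c_ag.IndexLaw

open Pool.Agent.H914 Pool.Agent.Y143 Pool.Agent.Y163.MW

lemma b1 : StB1.{w, v} := Pool.Agent.Y954.MW.stB1 Pool.Agent.Y141.MW.stL

section

variable {K : Type u} [Field K] {Ω : Type w} [Field Ω] [CharZero Ω]

/-- All `H^m(X)` are mw pure of weight `m`. -/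
def AllPure (T : Theory.{u, v, w} K Ω) (q : ℕ) (X : SmVar.{u} K) : Prop :=
  ∀ m, (T.H X).MWPure q m

/-- The moment criteria: for all `m` twice the sum of the `k * rank (N ^ k)` for `N` on `H^m(X)` is at
most the sum of the `(w - m) ^ 2` over the eigenvalues of `F` on `H^m(X)` (`w` their weight), with
equality if and only if `H^m(X)` is mw pure of weight `m`; the same for the whole cohomology. -/
def MomentCriterion (T : Theory.{u, v, w} K Ω) (q : ℕ) (X : SmVar.{u} K) : Prop :=
  (∀ m, (T.H X).rankMoment m ≤ (T.H X).weightMoment q m ∧
    ((T.H X).rankMoment m = (T.H X).weightMoment q m ↔ (T.H X).MWPure q m)) ∧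
  (T.H X).totRankMoment ≤ (T.H X).totWeightMoment q ∧
  ((T.H X).totRankMoment = (T.H X).totWeightMoment q ↔ AllPure T q X)

/-- The square criterion: `inv` is at least `pred`, and for `X × X` equality holds if and only if all
`H^m(X)` are mw pure. -/
def SquareCriterion (T : Theory.{u, v, w} K Ω) (q : ℕ) (X : SmVar.{u} K) : Prop :=
  (T.H X).pred q ≤ (T.H X).inv ∧
    ((T.H (X.prod X)).inv = (T.H (X.prod X)).pred q ↔ AllPure T q X)

/-- The limit in the index law. -/
noncomputable def index (T : Theory.{u, v, w} K Ω) (q : ℕ) (X : SmVar.{u} K) : ℝ :=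
  √(((T.H X).totWeightMoment q : ℝ) / ((T.H X).totRankMoment : ℝ))

/-- The index law: if `N` is not zero on the cohomology of `X`, then `inv / pred` for `X ^ n` tends
to `index`, and `index = 1` if and only if all `H^m(X)` are mw pure. -/
def IndexLimit (T : Theory.{u, v, w} K Ω) (q : ℕ) (X : SmVar.{u} K) : Prop :=
  (T.H X).N ≠ 0 → 0 < (T.H X).totRankMoment ∧
    Tendsto (fun n : ℕ => ((T.H (pow X n)).inv : ℝ) / ((T.H (pow X n)).pred q : ℝ)) atTop
      (𝓝 (index T q X)) ∧ (index T q X = 1 ↔ AllPure T q X)

/-- The zero-one law: if all `H^m(X)` are mw pure, then for all `n` all the eigenvalues of `F` on the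
graded pieces of the monodromy filtration `M n` of the cohomology of `X ^ n` have the weight
predicted by the conjecture; otherwise the proportion of the eigenvalues with this property
tends to `0`. -/
def ZeroOneLaw (T : Theory.{u, v, w} K Ω) (q : ℕ) (X : SmVar.{u} K) : Prop :=
  ∀ M : ∀ n, ℤ → Submodule Ω (T.H (pow X n)).V,
    (∀ n, IsMonodromyFiltrationOn ⊤ (T.H (pow X n)).N (M n)) →
    (AllPure T q X → ∀ n, (T.H (pow X n)).right q (M n) = finrank Ω (T.H (pow X n)).V) ∧
    (¬ AllPure T q X → Tendsto (fun n : ℕ =>
      ((T.H (pow X n)).right q (M n) : ℝ) / (finrank Ω (T.H (pow X n)).V : ℝ)) atTop (𝓝 0))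

end

/-- **Numerical criteria for the monodromy-weight conjecture.** Let `X` be a smooth proper variety
over a local field whose residue field has `q` elements, `F` a geometric Frobenius and `N` the
monodromy operator on its cohomology.

(1) For all `m` twice the sum of the numbers `k * rank (N ^ k)` for `N` on `H^m(X)` is at most the
sum of the `(w - m) ^ 2` over the eigenvalues of `F` on `H^m(X)` (`w` their weight), with equality if
and only if `H^m(X)` is mw pure of weight `m`; the same for the whole cohomology.

(2) The dimension `inv` of the kernel of `N` on the cohomology is at least the number `pred` of the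
eigenvalues of `F` on the `H^m` of weight `m` or `m + 1`; for `X × X` equality holds if and only if
`H^m(X)` is mw pure of weight `m` for all `m`.

(3) If `N` is not zero on the cohomology of `X`, then `inv / pred` for `X ^ n` tends to the square
root of the quotient of the two numbers compared in (1), for the whole cohomology; this limit is
`1` if and only if all `H^m(X)` are mw pure.

(4) If all `H^m(X)` are mw pure, then for all `n` all eigenvalues of `F` on the graded pieces of
the monodromy filtration of the cohomology of `X ^ n` have the weight predicted by the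
conjecture. Otherwise the proportion of the eigenvalues with this property tends to `0`. -/
theorem result {K : Type u} [Field K] {Ω : Type w} [Field Ω] [CharZero Ω] [IsAlgClosed Ω]
    {T : Theory.{u, v, w} K Ω} {q : ℕ} (hq : 1 < q) (hT : T.IsLocal q) (X : SmVar.{u} K) :
    MomentCriterion T q X ∧ SquareCriterion T q X ∧ IndexLimit T q X ∧ ZeroOneLaw T q X := by
  have htot := Coh.moment_tot hq (hT.coh X)
  refine ⟨⟨fun m => Coh.moment_deg hq (hT.coh X) m, htot⟩,
    ⟨Coh.pred_le_inv b1 hq (hT.coh X), square_iff b1 hT hq X⟩, fun hN => ?_,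
    fun M hM => zero_one hT hq X M hM⟩
  have hpos := Coh.totRank_pos hq (hT.coh X) hN
  refine ⟨hpos, index_law b1 hT hq X hN, ?_⟩
  unfold index AllPure
  rw [← htot.2]
  have h1 : (0 : ℝ) < ((T.H X).totRankMoment : ℝ) := by exact_mod_cast hpos
  rw [Real.sqrt_eq_one, div_eq_one_iff_eq h1.ne']
  constructor
  · intro h
    exact_mod_cast h.symm
  · intro h
    rw [h]

end Pool.Agent.Results.MP_855f4c_ag.IndexLaw
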