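import Pool.Agent.Y143.Simple

/-!
# mw purity when the transcendental classes of the strata are simple
-/

open Pool.Agent.Y143

universe u v

/-- Let `X` be a projective strictly semistable scheme of relative dimension `n` over `O`, and
`m ≤ n`. Suppose that for all `i ≥ 1` and `w ≥ 2` with `i + w ≤ m` every character `χ` of the
operators in `Γ` is simple in `E_1^(i, w)`, unless `w = 2`, the eigenvalue `χ(frob)` is `q` times a
root of unity and the Tate conjecture for divisors holds for `Y^(i)`. Then `H^m` and `H^(2n - m)` of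
the geometric generic fibre are mw pure. -/
theorem Pool.Agent.Results.MP_855f4c_ag.SimpleClasses.result
    {Ω : Type u} [Field Ω] [CharZero Ω] [IsAlgClosed Ω] {Γ : Type} {n q : ℕ}
    (X : Degeneration.{u, v} Ω Γ n q) (A : DivisorClasses X.toSpecialFibre)
    (m : ℕ) (hm : m ≤ n)
    (h : ∀ i w : ℕ, 1 ≤ i → 2 ≤ w → i + w ≤ m → ∀ χ : Γ → Ω,
      X.SimpleAt i w χ ∨ (w = 2 ∧ IsTateNumber q (χ X.frob) ∧ A.TateConj (i - 1))) :
    IsMWPure q m (X.actV m X.frob) (X.N m) ∧
      IsMWPure q (2 * n - m : ℕ) (X.actV (2 * n - m) X.frob) (X.N (2 * n - m)) :=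
  X.mwPure A m hm h
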